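import Mathlib
import Pool.Agent.Lib.MP_7c9306.Final

set_option autoImplicit false

/-!
MP_7c9306_co: an explicit infinite family of connected graphs with exactly three valencies and exactly
three eigenvalues.
-/

namespace Pool.Agent.Results.MP_7c9306_co.InfiniteFamily

open Finset Pool.Agent.MP_7c9306

/-- For every `s ≥ 1`, with `g = 2^s`, there is a connected simple graph on `4g^6+4g^2-1` vertices whose
degrees take exactly the three distinct values `2g^6`, `g^6+(g^3+g)^2`, `g^6+(g^3-g)^2`, whose adjacency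
matrix satisfies `A^2 = g^6 I + a a^T` with `a` integral positive, and has exactly three eigenvalues. -/
theorem result (s : ℕ) (hs : 1 ≤ s) :
    ∃ n : ℕ, (n : ℤ) = 4 * (2 ^ s) ^ 6 + 4 * (2 ^ s) ^ 2 - 1 ∧
      ∃ G : SimpleGraph (Fin n), ∃ _inst : DecidableRel G.Adj,
      G.Connected ∧
      (Finset.univ.image (fun v => (G.degree v : ℤ)))
        = {(2 ^ s) ^ 6 + ((2 ^ s) ^ 3) ^ 2, (2 ^ s) ^ 6 + ((2 ^ s) ^ 3 + 2 ^ s) ^ 2,
            (2 ^ s) ^ 6 + ((2 ^ s) ^ 3 - 2 ^ s) ^ 2} ∧
      (Finset.univ.image (fun v => G.degree v)).card = 3 ∧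
      (∃ a : Fin n → ℤ, (∀ i, 0 < a i) ∧
        G.adjMatrix ℤ * G.adjMatrix ℤ = (2 ^ s) ^ 6 • (1 : Matrix (Fin n) (Fin n) ℤ) + Matrix.vecMulVec a a) ∧
      (G.adjMatrix ℝ).charpoly.roots.toFinset.card = 3 := by
  obtain ⟨C, iF, iD, ⟨S⟩⟩ := exists_lab s hs
  have hcardC : Fintype.card C = Fintype.card (U (2 * s + 2)) := by
    rw [S.cardC, card_U, pow_add]; ring
  let ψ : C ≃ U (2 * s + 2) := Fintype.equivOfCardEq hcardC
  let g : ℤ := 2 ^ s
  have hgdef : g = 2 ^ s := rfl
  have hg : g ^ 2 = 2 ^ (2 * s) := by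
    rw [hgdef, ← pow_mul, mul_comm]
  have hg2 : 2 ≤ g := by
    rw [hgdef]
    calc (2 : ℤ) = 2 ^ 1 := by norm_num
      _ ≤ 2 ^ s := pow_le_pow_right₀ (by norm_num) hs
  have hgs : (s : ℤ) < g := by
    rw [hgdef]
    exact_mod_cast Nat.lt_two_pow_self
  clear_value g
  let n := Fintype.card (VV (2 * s) C)
  have hn : (n : ℤ) = 4 * g ^ 6 + 4 * g ^ 2 - 1 := card_VV S g hg
  have hn' : (n : ℤ) = 4 * (2 ^ s) ^ 6 + 4 * (2 ^ s) ^ 2 - 1 := by rw [hn, hgdef]
  let e : VV (2 * s) C ≃ Fin n := Fintype.equivFin _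
  have hg6 : g ≤ g ^ 6 := by
    nlinarith [pow_pos (show (0:ℤ) < g by linarith) 5, pow_le_pow_right₀ (show (1:ℤ) ≤ g by linarith) (show 1 ≤ 6 by norm_num)]
  have hnbig : (s : ℤ) ≤ n := by
    rw [hn]
    nlinarith [sq_nonneg g]
  have hn2 : (2 : ℤ) ≤ n := by
    rw [hn]
    nlinarith [sq_nonneg g]
  let G : SimpleGraph (Fin n) := (S.G ψ).comap e.symm
  have hadj : ∀ i j, G.Adj i j ↔ (S.G ψ).Adj (e.symm i) (e.symm j) := fun i j => Iff.rfl
  let inst : DecidableRel G.Adj := fun i j => decidable_of_iff _ (hadj i j).symm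
  let a : Fin n → ℤ := fun i => aa ψ g (e.symm i)
  have hsq : ∀ i j, ∑ w, (if G.Adj i w then (1 : ℤ) else 0) * (if G.Adj j w then (1 : ℤ) else 0)
      = (if i = j then g ^ 6 else 0) + a i * a j := by
    intro i j
    have h1 := G_sq S ψ g hg (e.symm i) (e.symm j)
    have h2 : (e.symm i = e.symm j) = (i = j) := propext e.symm.injective.eq_iff
    simp only [h2] at h1
    rw [← h1]
    rw [← Equiv.sum_comp e.symm (fun w => (if (S.G ψ).Adj (e.symm i) w then (1 : ℤ) else 0) *
      (if (S.G ψ).Adj (e.symm j) w then (1 : ℤ) else 0))]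
    apply Finset.sum_congr rfl
    intro w _
    simp only [hadj]
  have hg3 : g < g ^ 3 := by nlinarith [sq_nonneg (g - 1)]
  have hapos : ∀ i, 0 < a i := by
    intro i
    show 0 < aa ψ g (e.symm i)
    rcases e.symm i with u | p
    · show 0 < g ^ 3
      linarith
    · show 0 < g ^ 3 + DD ψ p.1 * g
      rcases DD_pm ψ p.1 with h | h <;> rw [h] <;> linarith
  have hcn : G.Connected := by
    apply conn_of_sq G (by
      have : (1 : ℤ) ≤ n := by linarith
      exact_mod_cast this)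
    intro i j hij
    rw [hsq, if_neg hij, zero_add]
    exact mul_pos (hapos i) (hapos j)
  have hdeg : ∀ i, (G.degree i : ℤ) = g ^ 6 + a i ^ 2 := by
    intro i
    have h1 := hsq i i
    rw [if_pos rfl] at h1
    have h2 : (G.degree i : ℤ) = ∑ w, (if G.Adj i w then (1 : ℤ) else 0) * (if G.Adj i w then (1 : ℤ) else 0) := by
      rw [← SimpleGraph.card_neighborFinset_eq_degree, SimpleGraph.neighborFinset_eq_filter]
      rw [Finset.card_filter]
      push_cast
      apply Finset.sum_congr rfl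
      intro w _
      by_cases h : G.Adj i w
      · simp [h]
      · simp [h]
    rw [h2, h1]; ring
  have himg : ((Finset.univ.image (fun v => G.degree v)).image (fun d : ℕ => (d : ℤ)))
      = {g ^ 6 + (g ^ 3) ^ 2, g ^ 6 + (g ^ 3 + g) ^ 2, g ^ 6 + (g ^ 3 - g) ^ 2} := by
    rw [Finset.image_image]
    ext z
    simp only [mem_image, mem_univ, true_and, Function.comp, mem_insert, mem_singleton]
    constructor
    · rintro ⟨i, rfl⟩
      rw [hdeg]
      show g ^ 6 + (aa ψ g (e.symm i)) ^ 2 = _ ∨ g ^ 6 + (aa ψ g (e.symm i)) ^ 2 = _ ∨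
        g ^ 6 + (aa ψ g (e.symm i)) ^ 2 = _
      rcases e.symm i with u | p
      · left; rfl
      · right
        show g ^ 6 + (g ^ 3 + DD ψ p.1 * g) ^ 2 = _ ∨ g ^ 6 + (g ^ 3 + DD ψ p.1 * g) ^ 2 = _
        rcases DD_pm ψ p.1 with h | h
        · left; rw [h]; ring
        · right; rw [h]; ring
    · have key : ∀ u : VV (2 * s) C, ((G.degree (e u) : ℕ) : ℤ) = g ^ 6 + (aa ψ g u) ^ 2 := by
        intro u
        rw [hdeg]
        show g ^ 6 + (aa ψ g (e.symm (e u))) ^ 2 = _
        rw [Equiv.symm_apply_apply]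
      have hone : ((fun _ => 1 : U (2 * s + 2)) : U (2 * s + 2)) ≠ 0 := by
        intro h
        have h1 : (1 : ZMod 2) = 0 := congrFun h ⟨0, by omega⟩
        exact absurd h1 (by decide)
      rintro (h | h | h)
      · refine ⟨e (Sum.inl ⟨fun _ => 1, hone⟩), ?_⟩
        rw [key, h]; rfl
      · refine ⟨e (Sum.inr (ψ.symm (fun _ => 1), 0)), ?_⟩
        rw [key, h]
        show g ^ 6 + (g ^ 3 + DD ψ (ψ.symm (fun _ => 1)) * g) ^ 2 = _
        unfold DD
        rw [Equiv.apply_symm_apply, if_neg hone]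
        ring
      · refine ⟨e (Sum.inr (ψ.symm 0, 0)), ?_⟩
        rw [key, h]
        show g ^ 6 + (g ^ 3 + DD ψ (ψ.symm 0) * g) ^ 2 = _
        unfold DD
        rw [Equiv.apply_symm_apply, if_pos rfl]
        ring

  have himg' : (Finset.univ.image (fun v => (G.degree v : ℤ)))
      = {g ^ 6 + (g ^ 3) ^ 2, g ^ 6 + (g ^ 3 + g) ^ 2, g ^ 6 + (g ^ 3 - g) ^ 2} := by
    rw [← himg, Finset.image_image]
    rfl
  have hcard3 : (Finset.univ.image (fun v => G.degree v)).card = 3 := by
    have hcard : ((Finset.univ.image (fun v => G.degree v)).image (fun d : ℕ => (d : ℤ))).card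
        = (Finset.univ.image (fun v => G.degree v)).card :=
      Finset.card_image_of_injective _ Nat.cast_injective
    rw [← hcard, himg]
    rw [Finset.card_insert_of_notMem, Finset.card_pair]
    · intro h
      nlinarith
    · rw [mem_insert, mem_singleton]
      rintro (h | h)
      · nlinarith
      · nlinarith
  refine ⟨n, hn', G, inst, hcn, ?_, hcard3, ?_, ?_⟩
  · rw [himg', hgdef]
  · refine ⟨a, hapos, ?_⟩
    ext i j
    rw [Matrix.mul_apply, Matrix.add_apply, Matrix.smul_apply, Matrix.one_apply, Matrix.vecMulVec_apply]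
    have h1 := hsq i j
    have h2 : ∑ w, (G.adjMatrix ℤ) i w * (G.adjMatrix ℤ) w j
        = ∑ w, (if G.Adj i w then (1 : ℤ) else 0) * (if G.Adj j w then (1 : ℤ) else 0) := by
      apply Finset.sum_congr rfl
      intro w _
      rw [SimpleGraph.adjMatrix_apply, SimpleGraph.adjMatrix_apply]
      simp only [G.adj_comm w j]
    rw [h2, h1, hgdef]
    by_cases h : i = j
    · rw [if_pos h, if_pos h]; simp
    · rw [if_neg h, if_neg h]; simp
  · -- eigenvalues
    have h01 : ∀ i j, (G.adjMatrix ℝ) i j = 0 ∨ (G.adjMatrix ℝ) i j = 1 := by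
      intro i j
      rw [SimpleGraph.adjMatrix_apply]
      split_ifs <;> simp
    have hsymm : ∀ i j, (G.adjMatrix ℝ) i j = (G.adjMatrix ℝ) j i := by
      intro i j
      rw [SimpleGraph.adjMatrix_apply, SimpleGraph.adjMatrix_apply]
      simp only [G.adj_comm]
    apply three_eigs (G.adjMatrix ℝ) (fun i => (a i : ℝ)) ((g : ℝ) ^ 3) ?_ ?_ hsymm h01 ?_ ?_ ?_
    · have : (2 : ℝ) ≤ g := by exact_mod_cast hg2
      calc (1 : ℝ) < 2 ^ 3 := by norm_num
        _ ≤ (g : ℝ) ^ 3 := pow_le_pow_left₀ (by norm_num) this 3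
    · exact_mod_cast hn2
    · intro i
      rw [SimpleGraph.adjMatrix_apply, if_neg (G.loopless.irrefl i)]
    · intro i
      exact_mod_cast hapos i
    · intro i j
      have h1 : ∑ w, (G.adjMatrix ℝ) i w * (G.adjMatrix ℝ) w j
          = ((∑ w, (if G.Adj i w then (1 : ℤ) else 0) * (if G.Adj j w then (1 : ℤ) else 0) : ℤ) : ℝ) := by
        push_cast
        apply Finset.sum_congr rfl
        intro w _
        rw [hsymm w j, SimpleGraph.adjMatrix_apply, SimpleGraph.adjMatrix_apply]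
      rw [h1, hsq]
      push_cast
      by_cases h : i = j
      · rw [if_pos h, if_pos h]; ring
      · rw [if_neg h, if_neg h]

end Pool.Agent.Results.MP_7c9306_co.InfiniteFamily
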